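import Pool.Agent.H24.L5.Stmts

/-!
# L5: the sum over the classes (row SMK)
-/

set_option autoImplicit false

namespace Pool.L5

open Finset Real MeasureTheory
open Pool.Agent.H49.Ent Pool.Agent.H32.Dense Pool.STK Pool.KA Pool.GP Pool.KRN

/-- Classes: two functionals with the same minimiser; the class is a function of the values. -/
lemma exists_cls2 {K N : ℕ} (hK : N + 1 < K) :
    ∃ A : (Fin K → ℕ → ℝ) → (Fin 2 → Fin K) × Fin (N + 1), ∀ f, Function.Injective (A f).1 ∧
      ∀ l, ∀ n ≤ N, f ((A f).1 l) ((A f).2 : ℕ) ≤ f ((A f).1 l) n := by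
  classical
  suffices h : ∀ f : Fin K → ℕ → ℝ, ∃ a : (Fin 2 → Fin K) × Fin (N + 1),
      Function.Injective a.1 ∧ ∀ l, ∀ n ≤ N, f (a.1 l) (a.2 : ℕ) ≤ f (a.1 l) n by
    choose A hA using h
    exact ⟨A, hA⟩
  intro f
  have hex : ∀ i : Fin K, ∃ n : Fin (N + 1), ∀ n' : Fin (N + 1), f i n ≤ f i n' := by
    intro i
    obtain ⟨n, -, hn⟩ := Finset.exists_min_image univ (fun n : Fin (N + 1) => f i n)
      ⟨0, Finset.mem_univ _⟩
    exact ⟨n, fun n' => hn n' (Finset.mem_univ _)⟩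
  choose M hM using hex
  obtain ⟨i, j, hij, he⟩ := Fintype.exists_ne_map_eq_of_card_lt M (by
    rw [Fintype.card_fin, Fintype.card_fin]
    exact hK)
  refine ⟨(![i, j], M i), ?_, ?_⟩
  · intro x y hxy
    fin_cases x <;> fin_cases y
    · rfl
    · exact absurd hxy hij
    · exact absurd hxy.symm hij
    · rfl
  · intro l n hn
    have hl : M (![i, j] l) = M i := by
      fin_cases l
      · rfl
      · exact he.symm
    have h3 := hM (![i, j] l) ⟨n, by omega⟩
    rw [hl] at h3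
    exact h3

/-- The information depends only on the conditioning variable and on the direction. -/
lemma fi_congr {m : ℕ} {Ω T : Type} [Fintype Ω] (p : Ω → ℝ) (W : Ω → T) (d : Ω → Fin m → ℝ)
    (J k : ℕ) (g : ℕ → ℕ) (n : ℕ) {ω ω' : Ω} (h1 : W ω = W ω') (h2 : d ω = d ω') :
    fi p W d J k g n ω = fi p W d J k g n ω' := by
  unfold fi
  rw [h1, h2]

/-- Two copies given a finer variable: the coupling is the average of the couplings in the
classes. -/
lemma sum_dbl {Ω κ T : Type} [Fintype Ω] [Fintype κ] {p : Ω → ℝ} (hp : ∀ ω, 0 ≤ p ω)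
    (A : Ω → κ) (l : Ω → T) (hA : ∀ ω ω', l ω = l ω' → A ω = A ω') (w : Ω × Ω) :
    ∑ a, law p A a * dbl (cond p A a) l w = dbl p l w := by
  classical
  by_cases hw : l w.1 = l w.2
  · rw [Finset.sum_eq_single (A w.1)]
    · rcases (hp w.1).eq_or_lt with h0 | h0
      · unfold dbl glue Pool.Agent.H49.Ent.cond
        rw [if_pos hw, if_pos hw, ← h0]
        simp
      · have hl := law_pos hp A h0
        have hl2 := law_pos hp l h0
        have h1 : law (cond p A (A w.1)) l (l w.1) = law p l (l w.1) / law p A (A w.1) := by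
          rw [law_cond]
          congr 1
          unfold law
          refine Finset.sum_congr rfl fun ω _ => ?_
          by_cases h : l ω = l w.1
          · have h' : (l ω, A ω) = (l w.1, A w.1) := Prod.ext h (hA _ _ h)
            rw [if_pos h, if_pos h']
          · have h' : ¬ (l ω, A ω) = (l w.1, A w.1) := fun h' => h (Prod.ext_iff.mp h').1
            rw [if_neg h, if_neg h']
        unfold dbl glue
        rw [if_pos hw, if_pos hw, h1]
        unfold Pool.Agent.H49.Ent.cond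
        rw [if_pos rfl, if_pos (hA _ _ hw).symm]
        field_simp
    · intro a _ ha
      unfold dbl glue Pool.Agent.H49.Ent.cond
      rw [if_neg (Ne.symm ha)]
      simp
    · intro h
      exact absurd (Finset.mem_univ _) h
  · unfold dbl glue
    rw [if_neg hw]
    refine Finset.sum_eq_zero fun a _ => ?_
    rw [if_neg hw, mul_zero]

lemma sum_Gf {Ω κ T : Type} [Fintype Ω] [Fintype κ] {p : Ω → ℝ} (hp : ∀ ω, 0 ≤ p ω)
    (A : Ω → κ) (l : Ω → T) (hA : ∀ ω ω', l ω = l ω' → A ω = A ω') (M : ℕ) (τ : Ω → ℤ) :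
    ∑ a, law p A a * Gf M (cond p A a) l τ = Gf M p l τ := by
  unfold Gf Ex
  have h1 : ∀ a, law p A a * ∑ w : Ω × Ω, dbl (cond p A a) l w * ell M (τ w.1) (τ w.2) =
      ∑ w : Ω × Ω, (law p A a * dbl (cond p A a) l w) * ell M (τ w.1) (τ w.2) := by
    intro a
    rw [Finset.mul_sum]
    exact Finset.sum_congr rfl fun w _ => by ring
  rw [Finset.sum_congr rfl fun a _ => h1 a, Finset.sum_comm]
  refine Finset.sum_congr rfl fun w _ => ?_
  rw [← Finset.sum_mul, sum_dbl hp A l hA w]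

lemma sum_H {Ω κ S : Type} [Fintype Ω] [Fintype κ] {p : Ω → ℝ} (hp : IsLaw p) (A : Ω → κ)
    (X : Ω → S) :
    ∑ a, law p A a * H (cond p A a) X ≤ H p X ∧
      H p X ≤ ∑ a, law p A a * H (cond p A a) X + Real.log (Fintype.card κ) := by
  classical
  have h0 : ∑ a, law p A a * H (cond p A a) X = CH p X A := by
    rw [CH_eq_sum hp.nonneg]
    symm
    refine Finset.sum_subset (Finset.subset_univ _) fun a _ ha => ?_
    rw [law_eq_zero_of_notMem p A ha, zero_mul]
  have h1 := tya_CH_le hp X (fun _ => ()) A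
  have e1 : CH p X (fun _ => ()) = H p X := by
    unfold CH
    rw [H_const hp.sum_one, sub_zero]
    exact H_congr hp.nonneg (fun ω ω' _ _ h => Prod.ext h rfl)
      (fun ω ω' _ _ h => (Prod.ext_iff.mp h).1)
  have e2 : CH p X (fun ω => (A ω, ())) = CH p X A :=
    CH_congr hp.nonneg (fun ω ω' _ _ h => (Prod.ext_iff.mp h).1)
      (fun ω ω' _ _ h => (Prod.ext_iff.mp h).1)
      (fun ω ω' _ _ h => (Prod.ext_iff.mp h).1)
      (fun ω ω' _ _ h => Prod.ext h rfl)
  rw [e1, e2] at h1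
  rw [h0]
  exact h1

lemma CH_time {m J : ℕ} (F : Pool.KA.Fam m J) {q : F.Ω → ℝ} (hq : IsLaw q) {T : Type}
    (W : F.Ω → T) : CH q F.T W ≤ J * Real.log 2 := by
  classical
  have h4 := CH_le_card hq.nonneg hq.sum_one F.T W (fun _ => Finset.range (2 ^ J))
    (fun ω _ => Finset.mem_range.mpr (F.tim ω))
  rw [Ex_const hq.sum_one, Finset.card_range] at h4
  push_cast at h4
  rw [Real.log_pow] at h4
  exact h4

lemma Gl_nonneg {m J : ℕ} (F : Pool.KA.Fam m J) : 0 ≤ Gl F := by
  have hp := F.isLaw.nonneg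
  have ht : ∀ ω, 0 ≤ tz F ω ∧ tz F ω < ((2 ^ J : ℕ) : ℤ) := by
    intro ω
    have := F.tim ω
    unfold tz
    exact ⟨by positivity, by exact_mod_cast this⟩
  refine Ex_nonneg (dbl_nonneg hp) fun w _ => ?_
  exact ell_nonneg (by positivity) (ht _) (ht _)

/-- **The sum over the classes.** -/
theorem smk : SMKStmt := by
  intro hMBI hCOA hTWF hKCH hKGN hCLK hMB ε hε
  classical
  have hlog2 : 0 < Real.log 2 := Real.log_pos (by norm_num)
  have hlog3 : 0 < Real.log 3 := Real.log_pos (by norm_num)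
  obtain ⟨N, hN⟩ := exists_nat_ge (40 / ε + 1)
  have hN1 : (1 : ℝ) ≤ N := by
    have : 0 ≤ 40 / ε := by positivity
    linarith
  have hN0 : 0 < N := by
    have : (0 : ℝ) < N := by linarith
    exact_mod_cast this
  have hNε : 10 / (N : ℝ) ≤ ε / 4 := by
    have h1 : 40 / ε ≤ N := by linarith
    rw [div_le_iff₀ hε] at h1
    rw [div_le_div_iff₀ (by linarith) (by norm_num)]
    linarith
  obtain ⟨K, hK⟩ : ∃ K : ℕ, K = N + 6 := ⟨_, rfl⟩
  obtain ⟨b, C, hG⟩ := exists_gpos (m := 4) (by norm_num) K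
  obtain ⟨B, hB0, hB⟩ := hCLK hCOA hTWF hKCH hKGN K C N (by omega)
  obtain ⟨J₀, hJ₀⟩ := hMBI 2 3 (by norm_num) hMB (ε / 40) (by positivity)
  obtain ⟨Acl, hAcl⟩ := exists_cls2 (K := K) (N := N) (by omega)
  obtain ⟨q, hq⟩ : ∃ q : ℝ, q = (Fintype.card ((Fin 2 → Fin K) × Fin (N + 1)) : ℝ) := ⟨_, rfl⟩
  have hK0 : 0 < K := by omega
  have hq1 : 1 ≤ q := by
    rw [hq]
    have : 0 < Fintype.card ((Fin 2 → Fin K) × Fin (N + 1)) :=
      Fintype.card_pos_iff.mpr ⟨(fun _ => ⟨0, hK0⟩, 0)⟩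
    exact_mod_cast this
  have hlq : 0 ≤ Real.log q := Real.log_nonneg hq1
  refine ⟨12 * (J₀ * Real.log 2 + Real.log 3) + (14 * Real.log q + 2 * q + B + 10), B, hB0, ?_⟩
  intro J F hu
  have hp := F.isLaw.nonneg
  have hGl := Gl_nonneg F
  have hBG : 0 ≤ B * Gl F := mul_nonneg hB0 hGl
  have hεJ : 0 ≤ ε * J := by positivity
  rcases lt_or_ge J J₀ with hJ | hJ
  · -- small resolutions
    have h1 := H_box (J := J) F.isLaw F.dir
    have h1' : H F.p (F.D J) ≤ 4 * (J * Real.log 2 + Real.log 3) := by exact_mod_cast h1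
    have h2 : 0 ≤ Sl F := H_nonneg hp F.isLaw.sum_one _
    have h3 : 0 ≤ Kl F := by
      have := CH_time F F.isLaw F.l
      unfold Kl
      linarith
    have h4 : (J : ℝ) * Real.log 2 ≤ J₀ * Real.log 2 :=
      mul_le_mul_of_nonneg_right (by exact_mod_cast hJ.le) hlog2.le
    have h5 : 0 ≤ (J : ℝ) * Real.log 2 := by positivity
    linarith
  -- the grid and the classes
  obtain ⟨g, hgdef⟩ : ∃ g : ℕ → ℕ, g = fun n => min n N * J / N := ⟨_, rfl⟩
  obtain ⟨G, hGdef⟩ : ∃ G : ℕ, G = J / N + 1 := ⟨_, rfl⟩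
  have hg : Grid J N G g := by
    rw [hgdef, hGdef]
    exact exists_grid J hN0
  have hGr : 10 * (G : ℝ) ≤ ε / 4 * J + 10 := by
    have h1 : (G : ℝ) ≤ J / N + 1 := by
      rw [hGdef]
      push_cast
      have : ((J / N : ℕ) : ℝ) ≤ (J : ℝ) / N := Nat.cast_div_le
      linarith
    have h2 : 10 / (N : ℝ) * J ≤ ε / 4 * J := mul_le_mul_of_nonneg_right hNε (by positivity)
    have h3 : 10 * ((J : ℝ) / N + 1) = 10 / (N : ℝ) * J + 10 := by ring
    linarith
  obtain ⟨A, hA⟩ : ∃ A : F.Ω → (Fin 2 → Fin K) × Fin (N + 1), A = fun ω =>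
    Acl (fun i n => fi F.p (Lb F (r1 b i)) F.d J 2 g n ω) := ⟨_, rfl⟩
  have hAl : ∀ ω ω', F.l ω = F.l ω' → A ω = A ω' := by
    intro ω ω' h
    rw [hA]
    have h2 : (fun (i : Fin K) (n : ℕ) => fi F.p (Lb F (r1 b i)) F.d J 2 g n ω) =
        fun i n => fi F.p (Lb F (r1 b i)) F.d J 2 g n ω' := by
      funext i n
      exact fi_congr _ _ _ _ _ _ _ (Lb_of_l F _ ω ω' h) (Prod.ext_iff.mp h).2
    exact congrArg Acl h2
  have hlaw0 : ∀ a, 0 ≤ law F.p A a := fun a => law_nonneg hp A a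
  have hlaw1 : ∑ a, law F.p A a = 1 := by rw [tya_law_sum, F.isLaw.sum_one]
  obtain ⟨lm, hlm⟩ : ∃ lm : ℝ, lm = J * Real.log 2 := ⟨_, rfl⟩
  -- one class
  have hcls : ∀ a, 3 * (law F.p A a * H (cond F.p A a) (F.D J)) ≤
      3 * (law F.p A a * H (cond F.p A a) (fun ω => (F.X J ω, F.T ω))) +
        law F.p A a * (12 * lm) - 11 * (law F.p A a * CH (cond F.p A a) F.T F.l) +
        2 * 1 + law F.p A a * (10 * (ε / 40 * J)) +
        B * (law F.p A a * Gf (2 ^ J) (cond F.p A a) F.l (tz F)) +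
        law F.p A a * (B + 10 * G) := by
    intro a
    rcases (hlaw0 a).eq_or_lt with h0 | h0
    · rw [← h0]
      simp
    have hla : IsLaw (cond F.p A a) := ⟨cond_nonneg hp A a, sum_cond F.p A h0.ne'⟩
    obtain ⟨ω₀, hω₀⟩ : ∃ ω, A ω = a := by
      by_contra hcon
      push Not at hcon
      have : law F.p A a = 0 := by
        unfold law
        exact Finset.sum_eq_zero fun ω _ => if_neg (hcon ω)
      linarith
    have hinj : Function.Injective a.1 := by
      rw [← hω₀, hA]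
      exact (hAcl _).1
    have h1 := hB J G g F _ A a hla b a.1 (a.2 : ℕ) (ε / 40 * J) hG hg hu h0 hinj
      (by positivity) (fun M hM S z => hJ₀ J hJ 4 (F.res A a hla) M hM S z) (by
        intro l ω hω _ n hn
        have h2 := (hAcl (fun i n => fi F.p (Lb F (r1 b i)) F.d J 2 g n ω)).2 l n hn
        have h3 : Acl (fun i n => fi F.p (Lb F (r1 b i)) F.d J 2 g n ω) = a := by
          rw [← hω, hA]
        rw [h3] at h2
        exact h2)
    have e1 : Sl (F.res A a hla) = H (cond F.p A a) (fun ω => (F.X J ω, F.T ω)) := rfl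
    have e2 : Kl (F.res A a hla) = J * Real.log 2 - CH (cond F.p A a) F.T F.l := rfl
    have e3 : Gl (F.res A a hla) = Gf (2 ^ J) (cond F.p A a) F.l (tz F) := rfl
    rw [e1, e2, e3, ← hlm] at h1
    have h2 := mul_le_mul_of_nonneg_left h1 h0.le
    have h3 : -(law F.p A a * Real.log (law F.p A a)) ≤ 1 := by
      have h4 := Real.one_sub_inv_le_log_of_pos h0
      have h5 := mul_le_mul_of_nonneg_left h4 h0.le
      have h6 : law F.p A a * (1 - (law F.p A a)⁻¹) = law F.p A a - 1 := by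
        rw [mul_sub, mul_inv_cancel₀ h0.ne', mul_one]
      linarith
    linarith
  have hsum := Finset.sum_le_sum (s := univ) fun a _ => hcls a
  simp only [Finset.sum_add_distrib, Finset.sum_sub_distrib, ← Finset.mul_sum, ← Finset.sum_mul,
    hlaw1, one_mul, Finset.sum_const, Finset.card_univ, nsmul_eq_mul, ← hq] at hsum
  rw [sum_Gf hp A F.l hAl] at hsum
  have s1 := (sum_H F.isLaw A (F.D J)).2
  have s2 := (sum_H F.isLaw A (fun ω : F.Ω => (F.X J ω, F.T ω))).1
  have s3 := (tya_CH_le F.isLaw F.T F.l A).2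
  rw [tya_CH_sum hp F.T F.l A] at s3
  rw [← hq] at s1 s3
  have e3 : Gl F = Gf (2 ^ J) F.p F.l (tz F) := rfl
  rw [← e3] at hsum
  have e4 : Sl F = H F.p (fun ω : F.Ω => (F.X J ω, F.T ω)) := rfl
  have e5 : Kl F = lm - CH F.p F.T F.l := by rw [hlm]; rfl
  rw [e4, e5, ← hlm]
  have h9 : 0 ≤ 12 * ((J₀ : ℝ) * Real.log 2 + Real.log 3) := by positivity
  have h10 : (J : ℝ) * (10 * (ε / 40)) = ε / 4 * J := by ring
  linarith

end Pool.L5
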